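import Pool.Agent.helper36.BP.SpecD

/-!
# Project bp, row PF2: logarithmic saving for all polynomials
-/

set_option autoImplicit false

open Finset
open Pool.Agent.FI Pool.Agent.HK
open Pool.Agent.CH (nit rgh ll2)
open Pool.Agent.SK (tr0 Th)

noncomputable section

namespace Pool.Agent.BP

theorem PF2_ico (f : ℕ → ℂ) (M N : ℕ) (h1 : 1 ≤ M) (h2 : M ≤ N) :
    ∑ k ∈ Ico M N, f k = ∑ k ∈ Ioc 0 (N - 1), f k - ∑ k ∈ Ioc 0 (M - 1), f k := by
  have e : ∀ n, 1 ≤ n → Ioc 0 (n - 1) = Ico 1 n := by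
    intro n hn
    ext k
    simp only [Finset.mem_Ioc, Finset.mem_Ico]
    omega
  rw [e N (by omega), e M h1, ← Finset.sum_Ico_consecutive f h1 h2]
  ring

theorem PF2_rf (hSRF : SRF_stmt) (F : ℤ × ℤ → ℂ) (t : ℝ) (u : ℕ) :
    ∑ n ∈ Ioc 0 u, rf F n * nit t n = ∑ z ∈ FF u, F z * nit t (nn z) := by
  rw [← hSRF.1 (fun z => F z * nit t (nn z)) u]
  refine Finset.sum_congr rfl fun n _ => ?_
  unfold rf
  rw [Finset.sum_mul]
  refine Finset.sum_congr rfl fun z hz => ?_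
  show F z * nit t n = F z * nit t (nn z)
  rw [(Finset.mem_filter.1 hz).2]

theorem PF2_tel (w : ℕ → ℝ) (M N : ℕ) (h : M ≤ N) :
    ∑ n ∈ Ico M N, (w (n + 1) - w n) = w N - w M := by
  induction N, h using Nat.le_induction with
  | base => simp
  | succ N h ih =>
    rw [Finset.sum_Ico_succ_top h, ih]
    ring

theorem PF2_sbp (w : ℕ → ℝ) (a : ℕ → ℂ) (M N : ℕ) (h : M ≤ N) :
    ∑ k ∈ Ico M N, (w k : ℂ) * a k = (w N : ℂ) * ∑ k ∈ Ico M N, a k -
      ∑ n ∈ Ico M N, ((w (n + 1) - w n : ℝ) : ℂ) * ∑ k ∈ Ico M (n + 1), a k := by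
  induction N, h using Nat.le_induction with
  | base => simp
  | succ N h ih =>
    rw [Finset.sum_Ico_succ_top h, ih, Finset.sum_Ico_succ_top h (f := fun n =>
      ((w (n + 1) - w n : ℝ) : ℂ) * ∑ k ∈ Ico M (n + 1), a k), Finset.sum_Ico_succ_top h a]
    push_cast
    ring

theorem PF2_abel (w : ℕ → ℝ) (a : ℕ → ℂ) (M N : ℕ) (h : M ≤ N) (Bd : ℝ) (hB0 : 0 ≤ Bd)
    (hw0 : ∀ n, M ≤ n → 0 ≤ w n) (hm : ∀ n, M ≤ n → w n ≤ w (n + 1))
    (hB : ∀ n, M ≤ n → n ≤ N → ‖∑ k ∈ Ico M n, a k‖ ≤ Bd) :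
    ‖∑ k ∈ Ico M N, (w k : ℂ) * a k‖ ≤ 2 * w N * Bd := by
  rw [PF2_sbp w a M N h]
  have h1 : ‖(w N : ℂ) * ∑ k ∈ Ico M N, a k‖ ≤ w N * Bd := by
    rw [norm_mul, Complex.norm_real, Real.norm_of_nonneg (hw0 N h)]
    exact mul_le_mul_of_nonneg_left (hB N h le_rfl) (hw0 N h)
  have h2 : ‖∑ n ∈ Ico M N, ((w (n + 1) - w n : ℝ) : ℂ) * ∑ k ∈ Ico M (n + 1), a k‖ ≤ (w N - w M) * Bd := by
    refine (norm_sum_le _ _).trans ?_
    rw [← PF2_tel w M N h, Finset.sum_mul]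
    refine Finset.sum_le_sum fun n hn => ?_
    rw [Finset.mem_Ico] at hn
    have h3 : 0 ≤ w (n + 1) - w n := by
      have := hm n hn.1
      linarith
    rw [norm_mul, Complex.norm_real, Real.norm_of_nonneg h3]
    exact mul_le_mul_of_nonneg_left (hB (n + 1) (by omega) (by omega)) h3
  have h4 := norm_sub_le ((w N : ℂ) * ∑ k ∈ Ico M N, a k)
    (∑ n ∈ Ico M N, ((w (n + 1) - w n : ℝ) : ℂ) * ∑ k ∈ Ico M (n + 1), a k)
  have h5 : 0 ≤ w M * Bd := mul_nonneg (hw0 M le_rfl) hB0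
  nlinarith

theorem PF2 (hCHT : CHT_stmt) (hMMS : MMS_stmt) (hSRF : SRF_stmt) : PF2_stmt := by
  intro A B K
  obtain ⟨x₁, hx₁⟩ := hCHT (A + 3) B K
  obtain ⟨x₂, hx₂⟩ := hMMS (A + 1) (B + 1) (5 * K)
  set Q : ℝ := 5 ^ 20 + 3 * 5 ^ (A + 1) + 5 ^ (B + 1) with hQ
  refine ⟨⌈x₁⌉₊ + x₂ ^ 5 + ⌈Real.exp Q⌉₊, ?_⟩
  intro x hx d hd hdB ψ hψ j i hj hi κ t hU hκ hκK htK a e ha hxe hex
  have hxx : (⌈x₁⌉₊ : ℝ) + (x₂ : ℝ) ^ 5 + (⌈Real.exp Q⌉₊ : ℝ) ≤ x := by exact_mod_cast hx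
  have hc1 : x₁ ≤ ⌈x₁⌉₊ := Nat.le_ceil _
  have hc2 : Real.exp Q ≤ ⌈Real.exp Q⌉₊ := Nat.le_ceil _
  have hn1 : (0 : ℝ) ≤ ⌈x₁⌉₊ := Nat.cast_nonneg _
  have hn2 : (0 : ℝ) ≤ (x₂ : ℝ) ^ 5 := by positivity
  have hn3 : (0 : ℝ) ≤ ⌈Real.exp Q⌉₊ := Nat.cast_nonneg _
  have hxQ : Real.exp Q ≤ x := by linarith
  have hx1 : x₁ ≤ (x : ℝ) := by linarith
  have hx2 : (x₂ : ℝ) ^ 5 ≤ x := by linarith [Real.exp_pos Q]
  have hxpos : (0 : ℝ) < x := (Real.exp_pos Q).trans_le hxQ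
  set L := Real.log x with hL
  have hLQ : Q ≤ L := by
    rw [hL, Real.le_log_iff_exp_le hxpos]
    exact hxQ
  have hp1 : (0 : ℝ) < 5 ^ (A + 1) := by positivity
  have hp2 : (0 : ℝ) < 5 ^ (B + 1) := by positivity
  have hL20 : (5 : ℝ) ^ 20 ≤ L := by linarith
  have hLA : 3 * (5 : ℝ) ^ (A + 1) ≤ L := by
    have : (0 : ℝ) < 5 ^ 20 := by positivity
    linarith
  have hLB : (5 : ℝ) ^ (B + 1) ≤ L := by
    have : (0 : ℝ) < 5 ^ 20 := by positivity
    linarith
  have hL1000 : 1000 ≤ L := le_trans (by norm_num) hL20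
  have hL0 : 0 < L := by linarith
  -- the lower bound for the block
  have hx5 : (x : ℝ) ^ (1 / 5 : ℝ) = Real.exp (L / 5) := by
    rw [Real.rpow_def_of_pos hxpos, hL]
    congr 1
    ring
  have hx4 : (x : ℝ) ^ (1 / 4 : ℝ) = Real.exp (L / 4) := by
    rw [Real.rpow_def_of_pos hxpos, hL]
    congr 1
    ring
  have hexp : Real.exp (L / 5) + 1 ≤ Real.exp (L / 4) := by
    have h1 : Real.exp (L / 4) = Real.exp (L / 5) * Real.exp (L / 20) := by
      rw [← Real.exp_add]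
      congr 1
      ring
    have h2 : 1 ≤ Real.exp (L / 5) := Real.one_le_exp (by positivity)
    have h3 : L / 20 + 1 ≤ Real.exp (L / 20) := Real.add_one_le_exp _
    rw [h1]
    nlinarith
  have hcast : ((2 ^ e - 1 : ℕ) : ℝ) = 2 ^ e - 1 := by
    rw [Nat.cast_sub Nat.one_le_two_pow]
    push_cast
    ring
  have hlow : Real.exp (L / 5) ≤ ((2 ^ e - 1 : ℕ) : ℝ) := by
    rw [hcast]
    rw [hx4] at hxe
    linarith
  have hdl : CH.dl x ≤ L / 5 := by
    unfold CH.dl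
    rw [← hL]
    have h1 : L = L ^ (19 / 20 : ℝ) * L ^ (1 / 20 : ℝ) := by
      rw [← Real.rpow_add hL0]
      norm_num
    have h2 : (5 : ℝ) ≤ L ^ (1 / 20 : ℝ) := by
      have h3 : ((5 : ℝ) ^ (20 : ℕ)) ^ (1 / 20 : ℝ) ≤ L ^ (1 / 20 : ℝ) :=
        Real.rpow_le_rpow (by positivity) hL20 (by norm_num)
      have h4 : ((5 : ℝ) ^ (20 : ℕ)) ^ (1 / 20 : ℝ) = 5 := by
        rw [← Real.rpow_natCast, ← Real.rpow_mul (by norm_num)]
        norm_num
      rw [h4] at h3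
      exact h3
    have h5 : 0 < L ^ (19 / 20 : ℝ) := Real.rpow_pos_of_pos hL0 _
    have h6 : L ^ (19 / 20 : ℝ) * 5 ≤ L := by
      calc L ^ (19 / 20 : ℝ) * 5 ≤ L ^ (19 / 20 : ℝ) * L ^ (1 / 20 : ℝ) :=
            mul_le_mul_of_nonneg_left h2 h5.le
        _ = L := h1.symm
    linarith
  have hdle : Real.exp (CH.dl x) ≤ ((2 ^ e - 1 : ℕ) : ℝ) := (Real.exp_le_exp.2 hdl).trans hlow
  have h2e : (1 : ℝ) ≤ 2 ^ e := one_le_pow₀ (by norm_num)
  have h2e0 : (0 : ℝ) < 2 ^ e := by positivity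
  set H : ℤ × ℤ → ℂ := fun z => HC ψ j i κ z with hH
  -- the bound for the partial sums of the smooth polynomial
  have hT : ∀ v : ℕ, 2 ^ e - 1 ≤ v → ‖∑ n ∈ Ioc 0 v, rf H n * nit t n‖ ≤ v / L ^ (A + 3) := by
    intro v hv
    rw [PF2_rf hSRF]
    refine hx₁ x hx1 d hd hdB ψ hψ j i hj hi κ t hU hκ hκK htK v (hdle.trans ?_)
    exact_mod_cast hv
  have hpw : 2 ^ e ≤ 2 ^ (e + 1) := Nat.pow_le_pow_right (by norm_num) (by omega)
  have hLp : 0 < L ^ (A + 3) := by positivity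
  have hblock : ∀ n, 2 ^ e ≤ n → n ≤ 2 ^ (e + 1) →
      ‖∑ k ∈ Ico (2 ^ e) n, rf H k * nit t k‖ ≤ 3 * 2 ^ e / L ^ (A + 3) := by
    intro n h1 h2
    rw [PF2_ico _ _ _ Nat.one_le_two_pow h1]
    have h3 := hT (n - 1) (by omega)
    have h4 := hT (2 ^ e - 1) le_rfl
    have h5 : ((n - 1 : ℕ) : ℝ) ≤ 2 * 2 ^ e := by
      have : n - 1 ≤ 2 ^ (e + 1) := by omega
      have h6 : ((n - 1 : ℕ) : ℝ) ≤ ((2 ^ (e + 1) : ℕ) : ℝ) := by exact_mod_cast this
      push_cast at h6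
      rw [pow_succ] at h6
      linarith
    have h7 : ((2 ^ e - 1 : ℕ) : ℝ) ≤ 2 ^ e := by
      rw [hcast]
      linarith
    calc ‖_‖ ≤ ((n - 1 : ℕ) : ℝ) / L ^ (A + 3) + ((2 ^ e - 1 : ℕ) : ℝ) / L ^ (A + 3) :=
          (norm_sub_le _ _).trans (add_le_add h3 h4)
      _ ≤ 2 * 2 ^ e / L ^ (A + 3) + 2 ^ e / L ^ (A + 3) :=
          add_le_add (div_le_div_of_nonneg_right h5 hLp.le) (div_le_div_of_nonneg_right h7 hLp.le)
      _ = 3 * 2 ^ e / L ^ (A + 3) := by ring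
  have hLA0 : 0 < L ^ A := by positivity
  rcases (by omega : a = 0 ∨ a = 1 ∨ a = 2) with rfl | rfl | rfl
  · -- a = 0
    have e0 : (fun z => ((wt x 0 z : ℝ) : ℂ) * HC ψ j i κ z) = H := by
      funext z
      simp [wt, hH]
    rw [e0]
    unfold pol
    refine (hblock (2 ^ (e + 1)) hpw le_rfl).trans ?_
    rw [div_le_div_iff₀ hLp hLA0]
    have : L ^ (A + 3) = L ^ A * L ^ 3 := by ring
    rw [this]
    have h3 : 3 ≤ L ^ 3 := by
      calc (3 : ℝ) ≤ 1000 ^ 3 := by norm_num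
        _ ≤ L ^ 3 := pow_le_pow_left₀ (by norm_num) hL1000 3
    nlinarith [mul_pos h2e0 hLA0]
  · -- a = 1
    unfold pol
    have e1 : ∀ n : ℕ, rf (fun z => ((wt x 1 z : ℝ) : ℂ) * HC ψ j i κ z) n = (Real.log n : ℂ) * rf H n := by
      intro n
      unfold rf
      rw [Finset.mul_sum]
      refine Finset.sum_congr rfl fun z hz => ?_
      have := (Finset.mem_filter.1 hz).2
      simp [wt, this, hH]
    have e2 : ∑ n ∈ Ico (2 ^ e) (2 ^ (e + 1)), rf (fun z => ((wt x 1 z : ℝ) : ℂ) * HC ψ j i κ z) n * nit t n =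
        ∑ n ∈ Ico (2 ^ e) (2 ^ (e + 1)), ((Real.log ((n : ℕ) : ℝ) : ℝ) : ℂ) * (rf H n * nit t n) := by
      refine Finset.sum_congr rfl fun n _ => ?_
      rw [e1 n]
      ring
    rw [e2]
    refine (PF2_abel (fun n => Real.log n) (fun n => rf H n * nit t n) (2 ^ e) (2 ^ (e + 1)) hpw
      (3 * 2 ^ e / L ^ (A + 3)) (by positivity) ?_ ?_ hblock).trans ?_
    · intro n _
      exact Real.log_natCast_nonneg n
    · intro n hn
      apply Real.log_le_log
      · have : 0 < n := lt_of_lt_of_le (by positivity) hn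
        exact_mod_cast this
      · push_cast
        linarith
    · have hlog : Real.log ((2 ^ (e + 1) : ℕ) : ℝ) ≤ 4 * L := by
        have h1 : ((2 ^ (e + 1) : ℕ) : ℝ) ≤ 128 * (x : ℝ) ^ 2 := by
          have : ((2 ^ e : ℕ) : ℝ) ≤ ((64 * x ^ 2 : ℕ) : ℝ) := by exact_mod_cast hex
          push_cast at this ⊢
          rw [pow_succ]
          linarith
        have h2 : Real.log ((2 ^ (e + 1) : ℕ) : ℝ) ≤ Real.log (128 * (x : ℝ) ^ 2) :=
          Real.log_le_log (by positivity) h1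
        have h3 : Real.log (128 * (x : ℝ) ^ 2) = Real.log 128 + 2 * L := by
          rw [Real.log_mul (by norm_num) (by positivity), Real.log_pow, hL]
          norm_num
        have h4 : Real.log 128 ≤ 128 := Real.log_le_self (by norm_num)
        rw [h3] at h2
        linarith
      have h5 : 2 * Real.log ((2 ^ (e + 1) : ℕ) : ℝ) * (3 * 2 ^ e / L ^ (A + 3)) ≤
          2 * (4 * L) * (3 * 2 ^ e / L ^ (A + 3)) := by
        apply mul_le_mul_of_nonneg_right _ (by positivity)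
        linarith
      refine h5.trans ?_
      have h6 : 2 * (4 * L) * (3 * 2 ^ e / L ^ (A + 3)) = 24 * 2 ^ e / L ^ (A + 2) := by
        have : L ^ (A + 3) = L * L ^ (A + 2) := by ring
        rw [this]
        field_simp
        ring
      rw [h6, div_le_div_iff₀ (by positivity) hLA0]
      have : L ^ (A + 2) = L ^ A * L ^ 2 := by ring
      rw [this]
      have h3 : 24 ≤ L ^ 2 := by
        calc (24 : ℝ) ≤ 1000 ^ 2 := by norm_num
          _ ≤ L ^ 2 := pow_le_pow_left₀ (by norm_num) hL1000 2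
      nlinarith [mul_pos h2e0 hLA0]
  · -- a = 2
    unfold pol
    set G : ℤ × ℤ → ℂ := fun z => ((mue z : ℝ) : ℂ) * HC ψ j i κ z with hG
    have e1 : ∀ n : ℕ, rf (fun z => ((wt x 2 z : ℝ) : ℂ) * HC ψ j i κ z) n = if n ≤ zx x then rf G n else 0 := by
      intro n
      unfold rf
      by_cases hn : n ≤ zx x
      · rw [if_pos hn]
        refine Finset.sum_congr rfl fun z hz => ?_
        have := (Finset.mem_filter.1 hz).2
        simp [wt, this, hG, hn]
      · rw [if_neg hn]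
        refine Finset.sum_eq_zero fun z hz => ?_
        have := (Finset.mem_filter.1 hz).2
        simp [wt, this, hn]
    by_cases hz : zx x < 2 ^ e
    · rw [Finset.sum_eq_zero]
      · simp only [norm_zero]
        positivity
      · intro n hn
        rw [Finset.mem_Ico] at hn
        rw [e1 n, if_neg (by omega), zero_mul]
    · push Not at hz
      set N := min (2 ^ (e + 1)) (zx x + 1) with hN
      have hN1 : 2 ^ e ≤ N := le_min hpw (by omega)
      have hN2 : N ≤ 2 ^ (e + 1) := min_le_left _ _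
      have e2 : ∑ n ∈ Ico (2 ^ e) (2 ^ (e + 1)), rf (fun z => ((wt x 2 z : ℝ) : ℂ) * HC ψ j i κ z) n * nit t n =
          ∑ n ∈ Ico (2 ^ e) N, rf G n * nit t n := by
        rw [← Finset.sum_Ico_consecutive _ hN1 hN2]
        have h1 : ∑ n ∈ Ico N (2 ^ (e + 1)), rf (fun z => ((wt x 2 z : ℝ) : ℂ) * HC ψ j i κ z) n * nit t n = 0 := by
          refine Finset.sum_eq_zero fun n hn => ?_
          rw [Finset.mem_Ico] at hn
          have h2 : ¬ n ≤ zx x := by
            intro h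
            have h3 : N ≤ n := hn.1
            rw [hN] at h3
            rcases min_le_iff.1 h3 with h4 | h4
            · omega
            · omega
          rw [e1 n, if_neg h2, zero_mul]
        rw [h1, add_zero]
        refine Finset.sum_congr rfl fun n hn => ?_
        rw [Finset.mem_Ico] at hn
        have h2 : n ≤ zx x := by
          have := lt_of_lt_of_le hn.2 (min_le_right (2 ^ (e + 1)) (zx x + 1))
          omega
        rw [e1 n, if_pos h2]
      rw [e2, PF2_ico _ _ _ Nat.one_le_two_pow hN1]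
      have hM : ∀ u : ℕ, 2 ^ e - 1 ≤ u → ‖∑ n ∈ Ioc 0 u, rf G n * nit t n‖ ≤ u * 5 ^ (A + 1) / L ^ (A + 1) := by
        intro u hu
        have hur : Real.exp (L / 5) ≤ u := hlow.trans (by exact_mod_cast hu)
        have hu0 : (0 : ℝ) < u := (Real.exp_pos _).trans_le hur
        have hlogu : L / 5 ≤ Real.log u := by
          rw [Real.le_log_iff_exp_le hu0]
          exact hur
        have hxu : (x : ℝ) ≤ (u : ℝ) ^ 5 := by
          have h1 : (Real.exp (L / 5)) ^ 5 ≤ (u : ℝ) ^ 5 := pow_le_pow_left₀ (Real.exp_pos _).le hur 5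
          have h2 : (Real.exp (L / 5)) ^ 5 = x := by
            rw [← Real.exp_nat_mul]
            have : ((5 : ℕ) : ℝ) * (L / 5) = L := by
              push_cast
              ring
            rw [this, hL, Real.exp_log hxpos]
          rw [h2] at h1
          exact h1
        have hu2 : x₂ ≤ u := by
          have h1 : (x₂ : ℝ) ^ 5 ≤ (u : ℝ) ^ 5 := hx2.trans hxu
          have h2 : (x₂ : ℝ) ≤ u := le_of_pow_le_pow_left₀ (by norm_num) hu0.le h1
          exact_mod_cast h2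
        have hd' : (d : ℝ) ≤ Real.log u ^ (B + 1) := by
          refine hdB.trans ?_
          have h1 : (L / 5) ^ (B + 1) ≤ Real.log u ^ (B + 1) := pow_le_pow_left₀ (by positivity) hlogu _
          refine le_trans ?_ h1
          rw [div_pow, le_div_iff₀ (by positivity), pow_succ L B]
          exact mul_le_mul_of_nonneg_left hLB (by positivity)
        have hpow : (x : ℝ) ^ K ≤ (u : ℝ) ^ (5 * K) := by
          rw [pow_mul]
          exact pow_le_pow_left₀ hxpos.le hxu K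
        have h3 := hx₂ u hu2 d hd hd' ψ hψ j i hj hi κ t hU hκ (hκK.trans hpow) (htK.trans hpow)
        rw [PF2_rf hSRF]
        refine h3.trans ?_
        have h4 : (L / 5) ^ (A + 1) ≤ Real.log u ^ (A + 1) := pow_le_pow_left₀ (by positivity) hlogu _
        have h5 : 0 < (L / 5) ^ (A + 1) := by positivity
        calc (u : ℝ) / Real.log u ^ (A + 1) ≤ u / (L / 5) ^ (A + 1) :=
              div_le_div_of_nonneg_left hu0.le h5 h4
          _ = u * 5 ^ (A + 1) / L ^ (A + 1) := by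
              rw [div_pow]
              field_simp
      have h3 := hM (N - 1) (by omega)
      have h4 := hM (2 ^ e - 1) le_rfl
      have h5 : ((N - 1 : ℕ) : ℝ) ≤ 2 * 2 ^ e := by
        have : N - 1 ≤ 2 ^ (e + 1) := by omega
        have h6 : ((N - 1 : ℕ) : ℝ) ≤ ((2 ^ (e + 1) : ℕ) : ℝ) := by exact_mod_cast this
        push_cast at h6
        rw [pow_succ] at h6
        linarith
      have h7 : ((2 ^ e - 1 : ℕ) : ℝ) ≤ 2 ^ e := by
        rw [hcast]
        linarith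
      have hp : 0 < L ^ (A + 1) := by positivity
      calc ‖_‖ ≤ ((N - 1 : ℕ) : ℝ) * 5 ^ (A + 1) / L ^ (A + 1) + ((2 ^ e - 1 : ℕ) : ℝ) * 5 ^ (A + 1) / L ^ (A + 1) :=
            (norm_sub_le _ _).trans (add_le_add h3 h4)
        _ ≤ (2 * 2 ^ e) * 5 ^ (A + 1) / L ^ (A + 1) + 2 ^ e * 5 ^ (A + 1) / L ^ (A + 1) :=
            add_le_add (div_le_div_of_nonneg_right (mul_le_mul_of_nonneg_right h5 hp1.le) hp.le)
              (div_le_div_of_nonneg_right (mul_le_mul_of_nonneg_right h7 hp1.le) hp.le)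
        _ = 2 ^ e * (3 * 5 ^ (A + 1)) / L ^ (A + 1) := by ring
        _ ≤ 2 ^ e / L ^ A := by
            rw [div_le_div_iff₀ hp hLA0, pow_succ L A]
            have : 2 ^ e * L ^ A * (3 * 5 ^ (A + 1)) ≤ 2 ^ e * L ^ A * L :=
              mul_le_mul_of_nonneg_left hLA (by positivity)
            linarith

end Pool.Agent.BP
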